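import Pool.Agent.W602.GT.Sys
import Pool.Agent.W619.TW.NDefs

/-!
If the numerical dimension is at most `0` then the plurigenera are at most `1`.
-/

set_option autoImplicit false
set_option linter.unusedSectionVars false

open FF Pool.Agent.W602.GT

namespace Pool.Agent.U188.ARR

variable {n : ℕ} {K : Type} [Field K] [Algebra ℂ K]

/-- a pluricanonical form is determined by its value at the dual vector fields -/
theorem pluri_dual {t : Fin n → K} (ht : IsTranscendenceBasis ℂ t)
    {D0 : Fin n → Derivation ℂ K K} (hD0 : (Matrix.of fun i j => D0 i (t j)) = 1) {m : ℕ}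
    {ω : (Fin n → Derivation ℂ K K) → K} (h : IsPluri m ω) (D : Fin n → Derivation ℂ K K) :
    ω D = (Matrix.of fun i j => D i (t j)).det ^ m * ω D0 := by
  classical
  have h1 : D = fun i => ∑ j, (Matrix.of fun i j => D i (t j)) i j • D0 j := by
    funext i
    refine der_ext t ht fun l => ?_
    have h2 : (∑ j, (Matrix.of fun i j => D i (t j)) i j • D0 j) (t l) =
        ∑ j, D i (t j) * D0 j (t l) := by
      have h4 := map_sum (Derivation.coeFnAddMonoidHom (R := ℂ) (A := K) (M := K))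
        (fun j => (Matrix.of fun i j => D i (t j)) i j • D0 j) Finset.univ
      have h5 := congrFun h4 (t l)
      rw [Finset.sum_apply] at h5
      exact h5
    rw [h2]
    have h3 : ∀ j, D0 j (t l) = if j = l then 1 else 0 := by
      intro j
      have := congrFun (congrFun hD0 j) l
      rw [Matrix.of_apply, Matrix.one_apply] at this
      exact this
    simp only [h3, mul_ite, mul_one, mul_zero, Finset.sum_ite_eq', Finset.mem_univ, if_true]
  conv_lhs => rw [h1]
  exact h _ _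

theorem reg_pow' (v : Place ℂ K) {f : K} (hf : v.Reg f) (j : ℕ) : v.Reg (f ^ j) := by
  induction j with
  | zero =>
    rw [pow_zero]
    exact Or.inr (by rw [v.ord_one])
  | succ j ih =>
    rw [pow_succ]
    exact v.reg_mul ih hf

/-- **Plurigenera.** If `ν ≤ 0` then two regular `m`-canonical forms are proportional. -/
theorem prop_of_num {t : Fin n → K} (ht : IsTranscendenceBasis ℂ t)
    (hν : Pool.Agent.W619.TW.NumLe ℂ K n (fun _ => False) 0) {m : ℕ} (hm : 1 ≤ m)
    {ω₁ ω₂ : (Fin n → Derivation ℂ K K) → K} (h₁ : IsPluri m ω₁)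
    (r₁ : ∀ P : Place ℂ K, Divisorial n P → RegAt P ω₁) (h₂ : IsPluri m ω₂)
    (r₂ : ∀ P : Place ℂ K, Divisorial n P → RegAt P ω₂) :
    ∃ a b : ℂ, (a ≠ 0 ∨ b ≠ 0) ∧ ∀ D, a • ω₁ D + b • ω₂ D = 0 := by
  classical
  obtain ⟨D0, hD0⟩ := exists_dual (k := ℂ) ht
  by_cases h0 : ω₂ D0 = 0
  · refine ⟨0, 1, Or.inr one_ne_zero, fun D => ?_⟩
    rw [pluri_dual ht hD0 h₂ D, h0, mul_zero, smul_zero, zero_smul, add_zero]
  by_cases hc : IsAlgebraic ℂ (ω₁ D0 / ω₂ D0)
  · obtain ⟨c, hc⟩ := const_of_algebraic hc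
    refine ⟨1, -c, Or.inl one_ne_zero, fun D => ?_⟩
    rw [div_eq_iff h0] at hc
    rw [pluri_dual ht hD0 h₁ D, pluri_dual ht hD0 h₂ D, hc, one_smul, neg_smul, Algebra.smul_def]
    ring
  exfalso
  obtain ⟨C, hC⟩ := hν {1}
  have hreg : ∀ (j : ℕ) (i : Fin (j + 1)), Pool.Agent.W619.TW.IsSec ℂ K n (fun _ => False) {1}
      (j * m) 1 (fun D => ω₁ D ^ (i : ℕ) * ω₂ D ^ (j - i : ℕ)) := by
    intro j i
    refine ⟨?_, fun v hv _ D hD => ?_, fun v _ h => h.elim⟩
    · intro A D
      change ω₁ _ ^ (i : ℕ) * ω₂ _ ^ (j - i : ℕ) = _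
      rw [h₁ A D, h₂ A D, mul_pow, mul_pow, ← pow_mul, ← pow_mul]
      have h3 : j * m = m * i + m * (j - i) := by
        rw [← mul_add, Nat.add_sub_cancel' (Nat.lt_succ_iff.1 i.2), mul_comm]
      rw [h3, pow_add]
      ring
    · have h3 : v.Reg (ω₁ D ^ (i : ℕ) * ω₂ D ^ (j - i : ℕ)) :=
        v.reg_mul (reg_pow' v (r₁ v hv D hD) _) (reg_pow' v (r₂ v hv D hD) _)
      rcases h3 with h3 | h3
      · exact Or.inl h3
      · refine Or.inr ⟨1, by simp, one_ne_zero, ?_⟩
        rw [v.ord_one]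
        simpa using h3
  have hlin : ∀ j : ℕ, LinearIndependent ℂ fun (i : Fin (j + 1)) =>
      (fun D => ω₁ D ^ (i : ℕ) * ω₂ D ^ (j - i : ℕ) : (Fin n → Derivation ℂ K K) → K) := by
    intro j
    rw [Fintype.linearIndependent_iff]
    intro g hg i0
    have h1 : ∑ i : Fin (j + 1), g i • (ω₁ D0 ^ (i : ℕ) * ω₂ D0 ^ (j - i : ℕ)) = 0 := by
      have h1 := congrFun hg D0
      rw [Finset.sum_apply] at h1
      exact h1
    by_contra hne
    apply hc
    refine ⟨∑ i : Fin (j + 1), Polynomial.C (g i) * Polynomial.X ^ (i : ℕ), ?_, ?_⟩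
    · intro h2
      apply hne
      have h3 := congrArg (fun p => Polynomial.coeff p (i0 : ℕ)) h2
      simp only [Polynomial.finsetSum_coeff, Polynomial.coeff_C_mul, Polynomial.coeff_X_pow,
        Polynomial.coeff_zero, mul_ite, mul_one, mul_zero] at h3
      rw [Finset.sum_eq_single i0] at h3
      · simpa using h3
      · intro b _ hb
        rw [if_neg]
        intro h4
        exact hb (Fin.ext h4.symm)
      · intro h4
        exact absurd (Finset.mem_univ _) h4
    · rw [map_sum]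
      have h4 : ω₂ D0 ^ j * ∑ i : Fin (j + 1), (Polynomial.aeval (ω₁ D0 / ω₂ D0))
          (Polynomial.C (g i) * Polynomial.X ^ (i : ℕ)) = 0 := by
        rw [Finset.mul_sum, ← h1]
        refine Finset.sum_congr rfl fun i _ => ?_
        rw [map_mul, map_pow, Polynomial.aeval_X, Polynomial.aeval_C]
        change _ = g i • (ω₁ D0 ^ (i : ℕ) * ω₂ D0 ^ (j - i : ℕ))
        rw [Algebra.smul_def, div_pow]
        have h5 : ω₂ D0 ^ j = ω₂ D0 ^ (i : ℕ) * ω₂ D0 ^ (j - i : ℕ) := by
          rw [← pow_add, Nat.add_sub_cancel' (Nat.lt_succ_iff.1 i.2)]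
        rw [h5]
        have h6 : ω₂ D0 ^ (i : ℕ) ≠ 0 := pow_ne_zero _ h0
        field_simp
      exact (mul_eq_zero.1 h4).resolve_left (pow_ne_zero _ h0)
  have := hC ((C + 1) * m) (C + 1 + 1) (by nlinarith) ⟨_, hlin (C + 1), fun i => hreg (C + 1) i⟩
  rw [pow_zero, mul_one] at this
  omega

end Pool.Agent.U188.ARR
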