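import Pool.Agent.TH152.AC.Gen
import Pool.Agent.TH122.AB.Strict

/-!
The pluricanonical form of weight `n + 2` for `n + 2` hyperplanes in general position.
-/

set_option autoImplicit false

open FF Module Pool.Agent.W603.LV Pool.Agent.W602.GT Pool.Agent.W602.Cov Pool.Agent.W602.Cov.G
open Pool.Agent.W168.CG.PGR Pool.Agent.TH152.AC Pool.Agent.TH122.AB

namespace Pool.Agent.U188.ARR

variable {n q : ℕ} {ℓ : Fin q → Form n} {K : Type} [Field K] [Algebra ℂ K]

theorem weights_general (hℓ : ∀ i, ℓ i ≠ 0) {c : Fin (n + 2) → Fin q} (hc : General ℓ c) :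
    ∃ p : Bases ℓ → ℕ, ∑ B, p B = n + 2 ∧ ∀ F : Finset (Fin q), Proper ℓ F →
      (n + 2) * (∑ B, p B * cnt B.1 F) + ∑ B, p B ≤ (n + 2) * ((∑ B, p B) * rk ℓ F) := by
  classical
  let Bj : Fin (n + 2) → Bases ℓ := fun j => ⟨fun a => c (j.succAbove a), hc.1 j⟩
  let p : Bases ℓ → ℕ := fun B => ∑ j, if Bj j = B then 1 else 0
  have hsum : ∀ f : Bases ℓ → ℕ, ∑ B, p B * f B = ∑ j, f (Bj j) := by
    intro f
    calc ∑ B, p B * f B = ∑ B, ∑ j, (if Bj j = B then f B else 0) := by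
          refine Finset.sum_congr rfl fun B _ => ?_
          rw [Finset.sum_mul]
          refine Finset.sum_congr rfl fun j _ => ?_
          split_ifs <;> simp
      _ = ∑ j, ∑ B, (if Bj j = B then f B else 0) := Finset.sum_comm
      _ = _ := by
          refine Finset.sum_congr rfl fun j _ => ?_
          rw [Finset.sum_ite_eq]
          simp
  have h1 : ∑ B, p B = n + 2 := by
    have := hsum fun _ => 1
    simp only [mul_one, Finset.sum_const, Finset.card_univ, Fintype.card_fin, smul_eq_mul] at this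
    exact this
  refine ⟨p, h1, fun F hF => ?_⟩
  rw [hsum fun B => cnt B.1 F, h1]
  set s : ℕ := ∑ m : Fin (n + 2), (if c m ∈ F then 1 else 0) with hs
  have hcnt : ∀ j, cnt (Bj j).1 F + (if c j ∈ F then 1 else 0) = s := by
    intro j
    have h2 : cnt (Bj j).1 F = ∑ a : Fin (n + 1), (if c (j.succAbove a) ∈ F then 1 else 0) := by
      unfold cnt
      rw [Finset.card_filter]
    rw [hs, Fin.sum_univ_succAbove _ j, h2, add_comm]
  -- some hyperplane is not in F
  obtain ⟨j0, hj0⟩ : ∃ j, c j ∉ F := by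
    by_contra hcon
    push Not at hcon
    apply hF.2
    rw [eq_top_iff]
    intro φ _
    have h2 := (bas (Bj 0)).mem_span φ
    refine Submodule.span_mono ?_ h2
    rintro _ ⟨a, rfl⟩
    rw [bas_apply]
    exact ⟨_, hcon _, rfl⟩
  have hrk : s ≤ rk ℓ F := by
    have h2 := hcnt j0
    rw [if_neg hj0, add_zero] at h2
    rw [← h2]
    exact cnt_le_rk (Bj j0) F
  have hrk1 : 1 ≤ rk ℓ F := by
    obtain ⟨i, hi⟩ := hF.1
    by_contra hcon
    have h0 : rk ℓ F = 0 := by omega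
    unfold rk at h0
    rw [Submodule.finrank_eq_zero] at h0
    have h3 : ℓ i ∈ Submodule.span ℂ (ℓ '' (F : Set (Fin q))) := Submodule.subset_span ⟨i, hi, rfl⟩
    rw [h0, Submodule.mem_bot] at h3
    exact hℓ i h3
  have hsum2 : ∑ j, cnt (Bj j).1 F + s = (n + 2) * s := by
    rw [hs, ← Finset.sum_add_distrib, Finset.sum_congr rfl fun j _ => hcnt j, Finset.sum_const,
      Finset.card_univ, Fintype.card_fin, smul_eq_mul]
  have h5 : ∑ j, cnt (Bj j).1 F = (n + 1) * s := by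
    have : (n + 2) * s = (n + 1) * s + s := by ring
    omega
  rw [h5]
  have h6 : (n + 1) * s ≤ (n + 1) * rk ℓ F := Nat.mul_le_mul_left _ hrk
  have h7 : (n + 2) * rk ℓ F = (n + 1) * rk ℓ F + rk ℓ F := by ring
  have h8 : (n + 1) * s + 1 ≤ (n + 2) * rk ℓ F := by omega
  calc (n + 2) * ((n + 1) * s) + (n + 2) = (n + 2) * ((n + 1) * s + 1) := by ring
    _ ≤ (n + 2) * ((n + 2) * rk ℓ F) := Nat.mul_le_mul_left _ h8

/-- the weights -/
theorem section_exists {x : Fin (n + 1) → K} (hℓ : ∀ i, ℓ i ≠ 0) {c : Fin (n + 2) → Fin q}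
    (hc : General ℓ c) (hlx : ∀ i, lf (ℓ i) x ≠ 0) (hx0 : x 0 ≠ 0)
    (hbas : IsTranscendenceBasis ℂ (fun j : Fin n => x j.succ / x 0))
    (hP : ∀ P : Place ℂ K, Divisorial n P → HighAt ℓ x (n + 2) P) :
    ∃ ω : (Fin n → Derivation ℂ K K) → K, IsPluri (n + 2) ω ∧
      (∀ P : Place ℂ K, Divisorial n P → RegAt P ω) ∧ ∃ D, ω D ≠ 0 := by
  obtain ⟨p, hp0, hp⟩ := weights_general hℓ hc
  let B0 : Bases ℓ := ⟨fun a => c ((0 : Fin (n + 2)).succAbove a), hc.1 0⟩
  have hspan : Submodule.span ℂ (Set.range ℓ) = ⊤ := by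
    rw [eq_top_iff]
    intro φ _
    have h2 := (bas B0).mem_span φ
    refine Submodule.span_mono ?_ h2
    rintro _ ⟨a, rfl⟩
    rw [bas_apply]
    exact ⟨_, rfl⟩
  have i0 : Fin q := B0.1 0
  have hN : (1 : ℤ) ≤ ∑ B, (p B : ℤ) := by
    have : ((∑ B, p B : ℕ) : ℤ) = ((n + 2 : ℕ) : ℤ) := by rw [hp0]
    push_cast at this
    omega
  obtain ⟨D, hD⟩ := (bwb n K).2.2 x hx0 hbas
  have hpl := pf_pluri (ℓ := ℓ) x p 1
  rw [one_mul, hp0] at hpl
  refine ⟨pf ℓ x p 1, hpl, ?_, D, ?_⟩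
  · intro P hPd D hD
    obtain ⟨a, v, hv, -, c, hc, hc2⟩ :=
      pf_ord' p hp hspan 1 hlx P i0 D 1 (reg1 P hD).1 (reg1 P hD).2
    refine hc.mono ?_
    rcases hc2 with ⟨-, h⟩ | ⟨hv0, hsp, h⟩
    · exact h
    · obtain ⟨i, hi⟩ := hP P hPd a v hv hv0 hsp
      have h1 := h i
      push_cast at h1
      have hi' : ((n : ℤ) + 2) ≤ v i := by exact_mod_cast hi
      have h2 : (∑ B, (p B : ℤ)) * ((n : ℤ) + 2) ≤ (∑ B, (p B : ℤ)) * v i :=
        mul_le_mul_of_nonneg_left hi' (by linarith)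
      by_contra hneg
      push Not at hneg
      have h3 : ((n : ℤ) + 2) * c < 0 := mul_neg_of_pos_of_neg (by positivity) hneg
      linarith
  · unfold pf
    exact div_ne_zero (pow_ne_zero _ hD) (den_ne hlx p 1)

end Pool.Agent.U188.ARR
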